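import Pool.Agent.MNW.StmtsA

/-!
# Squad MNW, row NBW: arithmetic
-/

set_option autoImplicit false

namespace Pool.Agent.MNW.H85

open Pool.Agent.MNW

theorem nbw : NbwStmt := by
  intro g hg n hn1 hn
  have hg2 : (2 : ℝ) ≤ g := by exact_mod_cast hg
  have hl0 : 0 < Real.log 2 := Real.log_pos (by norm_num)
  have hl1 : Real.log 2 < 0.6931471808 := Real.log_two_lt_d9
  have h128 : Real.log 128 = 7 * Real.log 2 := by
    rw [show (128 : ℝ) = 2 ^ 7 by norm_num, Real.log_pow]
    norm_num
  set N : ℝ := 4 * (g : ℝ) + 10 with hN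
  have hN18 : 18 ≤ N := by linarith only [hN, hg2]
  have hN0 : 0 < N := by linarith only [hN18]
  have hn0 : 0 < n := by linarith only [hn1]
  have habs : |n * Real.log 2| = n * Real.log 2 := abs_of_nonneg (mul_nonneg hn0.le hl0.le)
  have hlogn : Real.log (4 * n) ≤ Real.log (4 * N) :=
    Real.log_le_log (by positivity) (by linarith only [hn])
  have hlog0 : 0 ≤ Real.log (4 * n) := Real.log_nonneg (by linarith only [hn1])
  have hlog : Real.log (4 * N) ≤ N / 16 + 3.2 := by
    have h1 : Real.log (4 * N) = Real.log (N / 16) + 6 * Real.log 2 := by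
      rw [show 4 * N = (N / 16) * 2 ^ 6 by ring, Real.log_mul (by positivity) (by norm_num),
        Real.log_pow]
      norm_num
    have h2 : Real.log (N / 16) ≤ N / 16 - 1 := Real.log_le_sub_one_of_pos (by positivity)
    rw [h1]
    linarith only [h2, hl1]
  have hmul : n * Real.log (4 * n) ≤ N * (N / 16 + 3.2) := by
    calc n * Real.log (4 * n) ≤ N * Real.log (4 * n) := mul_le_mul_of_nonneg_right hn hlog0
      _ ≤ N * (N / 16 + 3.2) := mul_le_mul_of_nonneg_left (hlogn.trans hlog) hN0.le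
  have hmul2 : n * Real.log 2 ≤ N * 0.7 := by
    calc n * Real.log 2 ≤ N * Real.log 2 := mul_le_mul_of_nonneg_right hn hl0.le
      _ ≤ N * 0.7 := mul_le_mul_of_nonneg_left (by linarith only [hl1]) hN0.le
  have hS : Real.log 128 + |n * Real.log 2| + n * Real.log (4 * n) ≤ 0.32 * N ^ 2 := by
    rw [habs, h128]
    nlinarith only [hmul, hmul2, hl1, hN18]
  have hS0 : 0 ≤ Real.log 128 + |n * Real.log 2| + n * Real.log (4 * n) := by
    rw [h128]
    positivity
  have hE1 : 0 ≤ E1 g := by
    unfold E1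
    positivity
  have hE2 : 0 ≤ E2 g := by
    unfold E2
    positivity
  have key : 0.7 * E1 g + E2 g * (0.32 * N ^ 2) ≤ N ^ 5 := by
    obtain ⟨x, hx⟩ : ∃ x : ℝ, (g : ℝ) = 2 + x := ⟨g - 2, by ring⟩
    have hx0 : 0 ≤ x := by linarith only [hx, hg2]
    rw [← sub_nonneg, hN]
    unfold E1 E2
    rw [hx]
    ring_nf
    positivity
  calc E1 g * Real.log 2 + E2 g * (Real.log 128 + |n * Real.log 2| + n * Real.log (4 * n))
      ≤ 0.7 * E1 g + E2 g * (0.32 * N ^ 2) := by
        have h3 : E1 g * Real.log 2 ≤ E1 g * 0.7 :=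
          mul_le_mul_of_nonneg_left (by linarith only [hl1]) hE1
        have h4 := mul_le_mul_of_nonneg_left hS hE2
        linarith only [h3, h4]
    _ ≤ N ^ 5 := key

end Pool.Agent.MNW.H85
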